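import Pool.Agent.W198.TC.Basic

/-!
# Second moment of a two-sided Dirichlet polynomial with Gaussian weight

Reusable: `gsum` (finite exponential sums), `gsum_normSq`, `gsum_integral`, `gsum_bound`,
the representation `DD_eq` of `DD` as a `gsum`, the index set `IS`, `num`, `den`, `fr`, `co`, and the
gap lemmas `log_gap`, `fr_gap`.
-/

open Complex Filter Topology Set MeasureTheory

namespace TC
namespace W333

variable {ι : Type*}

/-- a finite exponential sum with real coefficients `d` and frequencies `lm` -/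
noncomputable def gsum (s : Finset ι) (d lm : ι → ℝ) (t : ℝ) : ℂ :=
  ∑ x ∈ s, (d x : ℂ) * cexp (((-(t * lm x) : ℝ) : ℂ) * I)

theorem gsum_normSq (s : Finset ι) (d lm : ι → ℝ) (t : ℝ) :
    ((‖gsum s d lm t‖ ^ 2 : ℝ) : ℂ) = ∑ x ∈ s, ∑ y ∈ s, ((d x * d y : ℝ) : ℂ) *
      cexp (((t * (lm y - lm x) : ℝ) : ℂ) * I) := by
  rw [← Complex.normSq_eq_norm_sq, ← Complex.mul_conj]
  unfold gsum
  rw [map_sum, Finset.sum_mul_sum]
  refine Finset.sum_congr rfl fun x _ => Finset.sum_congr rfl fun y _ => ?_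
  rw [map_mul, Complex.conj_ofReal, ← Complex.exp_conj, map_mul, Complex.conj_ofReal, Complex.conj_I,
    mul_mul_mul_comm, ← Complex.exp_add]
  congr 1
  · push_cast; ring
  · congr 1
    push_cast
    ring

theorem gsum_integral (s : Finset ι) (d lm : ι → ℝ) (τ H : ℝ) (hH : 0 < H) :
    ((∫ t : ℝ, om τ H t * ‖gsum s d lm t‖ ^ 2 : ℝ) : ℂ) =
      ∑ x ∈ s, ∑ y ∈ s, ((d x * d y : ℝ) : ℂ) *
        (((Real.sqrt (2 * Real.pi) * H * Real.exp (-(H ^ 2 * (lm y - lm x) ^ 2) / 2) : ℝ) : ℂ) *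
          cexp (((τ * (lm y - lm x) : ℝ) : ℂ) * I)) := by
  have h1 : ∀ t : ℝ, ((om τ H t * ‖gsum s d lm t‖ ^ 2 : ℝ) : ℂ) =
      ∑ x ∈ s, ∑ y ∈ s, ((d x * d y : ℝ) : ℂ) *
        ((om τ H t : ℂ) * cexp (((t * (lm y - lm x) : ℝ) : ℂ) * I)) := by
    intro t
    rw [Complex.ofReal_mul, gsum_normSq, Finset.mul_sum]
    refine Finset.sum_congr rfl fun x _ => ?_
    rw [Finset.mul_sum]
    refine Finset.sum_congr rfl fun y _ => ?_
    ring
  rw [← integral_complex_ofReal, integral_congr_ae (Eventually.of_forall h1)]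
  rw [integral_finsetSum _ (fun x _ => integrable_finsetSum _
    (fun y _ => ((gau τ H (lm y - lm x) hH).1.const_mul _)))]
  refine Finset.sum_congr rfl fun x _ => ?_
  rw [integral_finsetSum _ (fun y _ => ((gau τ H (lm y - lm x) hH).1.const_mul _))]
  refine Finset.sum_congr rfl fun y _ => ?_
  rw [integral_const_mul, (gau τ H _ hH).2]

/-- second moment of an exponential sum with well spaced frequencies -/
theorem gsum_bound [DecidableEq ι] (s : Finset ι) (d lm : ι → ℝ) (τ H E : ℝ) (hH : 0 < H)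
    (hE : ∀ x ∈ s, ∀ y ∈ s, x ≠ y → Real.exp (-(H ^ 2 * (lm y - lm x) ^ 2) / 2) ≤ E) (hE0 : 0 ≤ E) :
    |(∫ t : ℝ, om τ H t * ‖gsum s d lm t‖ ^ 2) - Real.sqrt (2 * Real.pi) * H * ∑ x ∈ s, (d x) ^ 2| ≤
      Real.sqrt (2 * Real.pi) * H * ((∑ x ∈ s, |d x|) ^ 2 * E) := by
  have hK : 0 ≤ Real.sqrt (2 * Real.pi) * H := by positivity
  have h0 := gsum_integral s d lm τ H hH
  have h1 : (((∫ t : ℝ, om τ H t * ‖gsum s d lm t‖ ^ 2) -
      Real.sqrt (2 * Real.pi) * H * ∑ x ∈ s, (d x) ^ 2 : ℝ) : ℂ) =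
      ∑ x ∈ s, ∑ y ∈ s, (((d x * d y : ℝ) : ℂ) *
        (((Real.sqrt (2 * Real.pi) * H * Real.exp (-(H ^ 2 * (lm y - lm x) ^ 2) / 2) : ℝ) : ℂ) *
          cexp (((τ * (lm y - lm x) : ℝ) : ℂ) * I)) -
        if x = y then ((Real.sqrt (2 * Real.pi) * H * (d x) ^ 2 : ℝ) : ℂ) else 0) := by
    rw [Complex.ofReal_sub, h0, Finset.mul_sum, Complex.ofReal_sum, ← Finset.sum_sub_distrib]
    refine Finset.sum_congr rfl fun x hx => ?_
    rw [Finset.sum_sub_distrib, Finset.sum_ite_eq, if_pos hx]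
  rw [← Real.norm_eq_abs, ← Complex.norm_real, h1]
  have h2 : ∀ x ∈ s, ∀ y ∈ s, ‖((d x * d y : ℝ) : ℂ) *
        (((Real.sqrt (2 * Real.pi) * H * Real.exp (-(H ^ 2 * (lm y - lm x) ^ 2) / 2) : ℝ) : ℂ) *
          cexp (((τ * (lm y - lm x) : ℝ) : ℂ) * I)) -
        (if x = y then ((Real.sqrt (2 * Real.pi) * H * (d x) ^ 2 : ℝ) : ℂ) else 0)‖ ≤
      Real.sqrt (2 * Real.pi) * H * (|d x| * |d y| * E) := by
    intro x hx y hy
    by_cases hxy : x = y
    · subst hxy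
      have : ((d x * d x : ℝ) : ℂ) *
        (((Real.sqrt (2 * Real.pi) * H * Real.exp (-(H ^ 2 * (lm x - lm x) ^ 2) / 2) : ℝ) : ℂ) *
          cexp (((τ * (lm x - lm x) : ℝ) : ℂ) * I)) -
        (if x = x then ((Real.sqrt (2 * Real.pi) * H * (d x) ^ 2 : ℝ) : ℂ) else 0) = 0 := by
        simp only [sub_self, mul_zero, ofReal_zero, zero_mul, Complex.exp_zero, mul_one, if_true,
          ne_eq, OfNat.ofNat_ne_zero, not_false_eq_true, zero_pow, neg_zero, zero_div, Real.exp_zero]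
        push_cast
        ring
      rw [this, norm_zero]
      positivity
    · rw [if_neg hxy, sub_zero, norm_mul, norm_mul, Complex.norm_exp_ofReal_mul_I, mul_one,
        Complex.norm_real, Complex.norm_real, Real.norm_eq_abs, Real.norm_eq_abs, abs_mul,
        abs_of_nonneg (mul_nonneg hK (Real.exp_pos _).le)]
      have h3 := hE x hx y hy hxy
      have h4 : 0 ≤ |d x| * |d y| := by positivity
      calc |d x| * |d y| * (Real.sqrt (2 * Real.pi) * H *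
            Real.exp (-(H ^ 2 * (lm y - lm x) ^ 2) / 2))
          ≤ |d x| * |d y| * (Real.sqrt (2 * Real.pi) * H * E) :=
            mul_le_mul_of_nonneg_left (mul_le_mul_of_nonneg_left h3 hK) h4
        _ = _ := by ring
  refine (norm_sum_le _ _).trans ((Finset.sum_le_sum fun x hx => (norm_sum_le _ _).trans
    (Finset.sum_le_sum fun y hy => h2 x hx y hy)).trans (le_of_eq ?_))
  rw [sq, Finset.sum_mul_sum, Finset.sum_mul, Finset.mul_sum]
  refine Finset.sum_congr rfl fun x _ => ?_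
  rw [Finset.sum_mul, Finset.mul_sum]

/-! ## the representation of `DD` -/

/-- the index set of `DD` -/
def IS (N₁ N₂ : ℕ) : Finset (ℕ ⊕ (ℕ ⊕ Unit)) :=
  (Finset.Icc 2 N₁).disjSum ((Finset.Icc 2 N₂).disjSum {()})

/-- numerator -/
def num : ℕ ⊕ (ℕ ⊕ Unit) → ℕ
  | .inl n => n
  | .inr _ => 1

/-- denominator -/
def den : ℕ ⊕ (ℕ ⊕ Unit) → ℕ
  | .inl _ => 1
  | .inr (.inl n) => n
  | .inr (.inr _) => 1

/-- coefficient -/
def co (α β : ℕ → ℝ) (c : ℝ) : ℕ ⊕ (ℕ ⊕ Unit) → ℝ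
  | .inl n => α n
  | .inr (.inl n) => β n
  | .inr (.inr _) => c

/-- frequency -/
noncomputable def fr (x : ℕ ⊕ (ℕ ⊕ Unit)) : ℝ := Real.log (num x) - Real.log (den x)

theorem sum_IS {M : Type*} [AddCommMonoid M] (N₁ N₂ : ℕ) (f : ℕ ⊕ (ℕ ⊕ Unit) → M) :
    ∑ x ∈ IS N₁ N₂, f x = (∑ n ∈ Finset.Icc 2 N₁, f (.inl n)) +
      ((∑ n ∈ Finset.Icc 2 N₂, f (.inr (.inl n))) + f (.inr (.inr ()))) := by
  unfold IS
  rw [Finset.sum_disjSum, Finset.sum_disjSum, Finset.sum_singleton]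

theorem DD_eq (α β : ℕ → ℝ) (N₁ N₂ : ℕ) (c t : ℝ) :
    DD α β N₁ N₂ c t = gsum (IS N₁ N₂) (co α β c) fr t := by
  unfold gsum
  rw [sum_IS]
  unfold DD DP
  rw [map_sum, add_assoc]
  simp only [co, fr, num, den, Nat.cast_one, Real.log_one, sub_zero, zero_sub, mul_zero, neg_zero,
    ofReal_zero, zero_mul, Complex.exp_zero, mul_one]
  congr 2
  refine Finset.sum_congr rfl fun n _ => ?_
  rw [map_mul, Complex.conj_ofReal, ← Complex.exp_conj, map_mul, Complex.conj_ofReal, Complex.conj_I]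
  congr 2
  push_cast
  ring

theorem sz_eq (α β : ℕ → ℝ) (N₁ N₂ : ℕ) (c : ℝ) :
    sz α β N₁ N₂ c = ∑ x ∈ IS N₁ N₂, |co α β c x| := by
  rw [sum_IS]
  unfold sz
  simp only [co]
  ring

theorem sq_eq (α β : ℕ → ℝ) (N₁ N₂ : ℕ) (c : ℝ) :
    (∑ n ∈ Finset.Icc 2 N₁, (α n) ^ 2) + (∑ n ∈ Finset.Icc 2 N₂, (β n) ^ 2) + c ^ 2 =
      ∑ x ∈ IS N₁ N₂, (co α β c x) ^ 2 := by
  rw [sum_IS]
  simp only [co]
  ring

/-- gap between logarithms of different natural numbers -/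
theorem log_gap {A B P : ℕ} (hA : 1 ≤ A) (hB : 1 ≤ B) (hAP : A ≤ P) (hBP : B ≤ P) (hAB : A ≠ B) :
    1 / (P : ℝ) ≤ |Real.log A - Real.log B| := by
  have key : ∀ A B : ℕ, 1 ≤ B → A ≤ P → B < A → 1 / (P : ℝ) ≤ Real.log A - Real.log B := by
    intro A B hB hAP hlt
    have hA0 : (0 : ℝ) < A := by exact_mod_cast (by omega : 0 < A)
    have hB0 : (0 : ℝ) < B := by exact_mod_cast hB
    have hP0 : (0 : ℝ) < P := by exact_mod_cast (by omega : 0 < P)
    rw [← Real.log_div hA0.ne' hB0.ne']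
    have h1 := Real.one_sub_inv_le_log_of_pos (div_pos hA0 hB0)
    refine le_trans ?_ h1
    rw [inv_div]
    have h2 : (B : ℝ) + 1 ≤ A := by exact_mod_cast hlt
    have h3 : (A : ℝ) ≤ P := by exact_mod_cast hAP
    calc 1 / (P : ℝ) ≤ 1 / A := one_div_le_one_div_of_le hA0 h3
      _ ≤ (A - B) / A := by gcongr; linarith
      _ = 1 - B / A := by field_simp
  rcases Nat.lt_or_gt_of_ne hAB with h | h
  · rw [abs_sub_comm]
    exact (key B A hA hBP h).trans (le_abs_self _)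
  · exact (key A B hB hAP h).trans (le_abs_self _)

theorem num_pos {N₁ N₂ : ℕ} {x : ℕ ⊕ (ℕ ⊕ Unit)} (hx : x ∈ IS N₁ N₂) : 1 ≤ num x ∧ 1 ≤ den x := by
  rcases x with n | n | n
  · simp [IS] at hx
    simp only [num, den]; omega
  · simp [IS] at hx
    simp only [num, den]; omega
  · simp [num, den]

theorem fr_sub {N₁ N₂ : ℕ} {x y : ℕ ⊕ (ℕ ⊕ Unit)} (hx : x ∈ IS N₁ N₂) (hy : y ∈ IS N₁ N₂) :
    fr y - fr x = Real.log ((num y * den x : ℕ) : ℝ) - Real.log ((den y * num x : ℕ) : ℝ) := by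
  obtain ⟨a1, a2⟩ := num_pos hx
  obtain ⟨b1, b2⟩ := num_pos hy
  have p1 : ((num x : ℕ) : ℝ) ≠ 0 := by exact_mod_cast (by omega : num x ≠ 0)
  have p2 : ((den x : ℕ) : ℝ) ≠ 0 := by exact_mod_cast (by omega : den x ≠ 0)
  have p3 : ((num y : ℕ) : ℝ) ≠ 0 := by exact_mod_cast (by omega : num y ≠ 0)
  have p4 : ((den y : ℕ) : ℝ) ≠ 0 := by exact_mod_cast (by omega : den y ≠ 0)
  unfold fr
  rw [Nat.cast_mul, Nat.cast_mul, Real.log_mul p3 p2, Real.log_mul p4 p1]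
  ring

/-- cross products of different indices are different and at most `N₁ N₂` -/
theorem cross {N₁ N₂ : ℕ} (h1 : 1 ≤ N₁) (h2 : 1 ≤ N₂) {x y : ℕ ⊕ (ℕ ⊕ Unit)} (hx : x ∈ IS N₁ N₂)
    (hy : y ∈ IS N₁ N₂) (hxy : x ≠ y) : num y * den x ≠ den y * num x ∧
      num y * den x ≤ N₁ * N₂ ∧ den y * num x ≤ N₁ * N₂ := by
  have hP : 1 ≤ N₁ * N₂ := Nat.mul_pos h1 h2
  have hP1 : N₁ ≤ N₁ * N₂ := Nat.le_mul_of_pos_right _ h2
  have hP2 : N₂ ≤ N₁ * N₂ := Nat.le_mul_of_pos_left _ h1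
  rcases x with n | n | n <;> rcases y with m | m | m
  · simp [IS] at hx hy
    have : n ≠ m := fun h => hxy (by rw [h])
    simp only [num, den]; omega
  · simp [IS] at hx hy
    have h3 : m * n ≤ N₁ * N₂ := by rw [mul_comm m n]; exact Nat.mul_le_mul hx.2 hy.2
    have h4 : 2 * 2 ≤ m * n := Nat.mul_le_mul hy.1 hx.1
    simp only [num, den]; omega
  · simp [IS] at hx
    simp only [num, den]; omega
  · simp [IS] at hx hy
    have h3 : m * n ≤ N₁ * N₂ := Nat.mul_le_mul hy.2 hx.2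
    have h4 : 2 * 2 ≤ m * n := Nat.mul_le_mul hy.1 hx.1
    simp only [num, den]; omega
  · simp [IS] at hx hy
    have : n ≠ m := fun h => hxy (by rw [h])
    simp only [num, den]; omega
  · simp [IS] at hx
    simp only [num, den]; omega
  · simp [IS] at hy
    simp only [num, den]; omega
  · simp [IS] at hy
    simp only [num, den]; omega
  · exact absurd rfl hxy

theorem fr_gap {N₁ N₂ : ℕ} (h1 : 1 ≤ N₁) (h2 : 1 ≤ N₂) {x y : ℕ ⊕ (ℕ ⊕ Unit)} (hx : x ∈ IS N₁ N₂)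
    (hy : y ∈ IS N₁ N₂) (hxy : x ≠ y) : 1 / ((N₁ : ℝ) * N₂) ≤ |fr y - fr x| := by
  obtain ⟨a1, a2⟩ := num_pos hx
  obtain ⟨b1, b2⟩ := num_pos hy
  obtain ⟨c1, c2, c3⟩ := cross h1 h2 hx hy hxy
  rw [fr_sub hx hy]
  have := log_gap (Nat.mul_pos b1 a2) (Nat.mul_pos b2 a1) c2 c3 c1
  rwa [Nat.cast_mul N₁ N₂] at this

end W333

/-- **second moment of a two-sided Dirichlet polynomial with Gaussian weight** -/
theorem tri1 : S_TRI1 := by
  intro α β N₁ N₂ c τ H hH h1 h2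
  simp_rw [W333.DD_eq]
  rw [W333.sq_eq, W333.sz_eq]
  refine W333.gsum_bound (W333.IS N₁ N₂) (W333.co α β c) W333.fr τ H _ hH ?_ (Real.exp_pos _).le
  intro x hx y hy hxy
  have hg := W333.fr_gap h1 h2 hx hy hxy
  have hN1 : (0 : ℝ) < N₁ := by exact_mod_cast h1
  have hN2 : (0 : ℝ) < N₂ := by exact_mod_cast h2
  have hP : (0 : ℝ) < (N₁ : ℝ) * N₂ := by positivity
  rw [Real.exp_le_exp]
  have h3 : (1 / ((N₁ : ℝ) * N₂)) ^ 2 ≤ (W333.fr y - W333.fr x) ^ 2 := by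
    rw [← sq_abs (W333.fr y - W333.fr x)]
    exact pow_le_pow_left₀ (by positivity) hg 2
  have h4 : H ^ 2 * (1 / ((N₁ : ℝ) * N₂)) ^ 2 ≤ H ^ 2 * (W333.fr y - W333.fr x) ^ 2 :=
    mul_le_mul_of_nonneg_left h3 (sq_nonneg H)
  have h5 : H ^ 2 / (8 * ((N₁ : ℝ) * N₂) ^ 2) = H ^ 2 * (1 / ((N₁ : ℝ) * N₂)) ^ 2 / 8 := by
    field_simp
  have h6 : 0 ≤ H ^ 2 * (1 / ((N₁ : ℝ) * N₂)) ^ 2 := by positivity
  rw [neg_div, neg_div, h5]
  linarith

end TC
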